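import Pool.Agent.H74.NefMain

/-!
# Fibre spaces in the weak nef cone conjecture

`D : PairData n d` is `N^1(X/Z) = ℝ^n` with its lattice, the ample cone, the cone of effective classes, the image of
`Aut(X/Z, Δ)` and the intersection form `T` on a general fibre of `X → Z`, `d = dim X - dim Z`. A contraction
`X → Y` over `Z` is given by the subspace `W = φ^* N^1(Y/Z)`; a factorisation `X → X' → Y` by
`W ⊂ U = N^1(X'/Z)`.
-/

set_option autoImplicit false

namespace Pool.Agent.Results.MP_39bf0e_ag.FibreSpaces

open Pool.Agent.H57.KM Pool.Agent.H74.Nef

/-- (1) Every `U` contains only finitely many nondegenerate fibre spaces `W` (fibre spaces such that a class of `U`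
which is numerically trivial on the general fibre is in `W`). (2) Regular fibre spaces are nondegenerate. (3) If the
faces of the birational contractions lie in finitely many classes under the group, then so do the faces of all
nondegenerate fibre spaces `W ⊂ U`, `U` birational. -/
theorem result {n d : ℕ} (D : PairData n d) :
    (∀ U : Submodule ℝ (V n), {W : Submodule ℝ (V n) | D.Nondeg U W}.Finite) ∧
    (∀ U W : Submodule ℝ (V n), D.Regular U W → D.Nondeg U W) ∧
    (D.FinClasses {A | ∃ U, D.IsBir U ∧ A = D.face U} →
      D.FinClasses {A | ∃ U W, D.IsBir U ∧ D.Nondeg U W ∧ A = D.face W}) :=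
  main D

end Pool.Agent.Results.MP_39bf0e_ag.FibreSpaces
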