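import Pool.Agent.H74.NefExc

/-!
# Divisorial contractions with small centres in the weak nef cone conjecture

`D : PairData n d` is `N^1(X) = ℝ^n` (`Z` a point) with its cones, group and top intersection form `T`,
`d = dim X`. A birational contraction `φ : X → Y` is given by `W = φ^* N^1(Y)`; `N = {x : w^s x = 0}` (`w` the
class of an ample divisor of `Y`, `s ≤ d - 2`) is spanned by the exceptional divisors with centre of dimension
less than `s`.
-/

set_option autoImplicit false

namespace Pool.Agent.Results.MP_39bf0e_ag.SmallCentres

open Pool.Agent.H57.KM Pool.Agent.H74.Nef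

/-- For `1 ≤ s ≤ d - 2` only finitely many subspaces `W` have property `SmallCentres s`. -/
theorem result {n d : ℕ} (D : PairData n d) (s : ℕ) (hs1 : 1 ≤ s) (hs : s + 2 ≤ d) :
    {W : Submodule ℝ (V n) | D.SmallCentres s W}.Finite :=
  finite_exc D hs1 hs

end Pool.Agent.Results.MP_39bf0e_ag.SmallCentres
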